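import Pool.Agent.Helper30.VQ.Disc
import Pool.Agent.Helper59.V8.Cyc

/-!
Lemma Q in the form of `Helper59.V8.Cyc`: the coupling on one circle with `nL` left and `nR` right
crossings is at most `sqrt (nL * nR) / 4` times the energy.
-/

namespace Pool.Agent.Helper30.VQ

open Finset Complex Pool.Agent.Helper59.V8

/-- one closed circle, `b k` says on which side the crossing of step `k` lies -/
theorem circle_q {n : ℕ} (L R : ℕ → ℂ) (hL : L n = L 0) (hR : R n = R 0) (b : ℕ → Bool)
    (h1 : ∀ k, b k = true → R (k + 1) = R k) (h2 : ∀ k, b k = false → L (k + 1) = L k) :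
    |∑ k ∈ range n, fj (L k) (R k) (L (k + 1)) (R (k + 1))| ≤
      Real.sqrt ((((range n).filter (fun k => b k = true)).card : ℝ)
        * (((range n).filter (fun k => b k = false)).card : ℝ)) / 4
      * ∑ k ∈ range n, fu (L k) (R k) (L (k + 1)) (R (k + 1)) := by
  have e1 : (range n).filter (fun k => ¬ (b k = true)) = (range n).filter (fun k => b k = false) := by
    apply filter_congr
    intro k _
    simp
  have h := lemQ L R n hL hR (fun k => b k = true) (fun j _ hj => h1 j hj)
    (fun j _ hj => h2 j (by simpa using hj))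
    (Real.sqrt ((((range n).filter (fun k => b k = true)).card : ℝ)
        * (((range n).filter (fun k => b k = false)).card : ℝ)))
    (Real.sqrt_nonneg _) (by
      rw [Real.sq_sqrt (by positivity), e1])
  have e2 : ∀ k, fj (L k) (R k) (L (k + 1)) (R (k + 1))
      = (R k * (starRingEnd ℂ) (L (k + 1) - L k) + L k * (starRingEnd ℂ) (R (k + 1) - R k)).im := by
    intro k
    unfold fj
    rw [Complex.add_im]
  have e3 : ∀ k, fu (L k) (R k) (L (k + 1)) (R (k + 1))
      = ‖L (k + 1) - L k‖ ^ 2 + ‖R (k + 1) - R k‖ ^ 2 := by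
    intro k
    unfold fu
    rw [Complex.normSq_eq_norm_sq, Complex.normSq_eq_norm_sq]
  simp only [e2, e3]
  exact h

variable {P : Type} [Fintype P]

/-- number of left steps on the cycle of `e` -/
noncomputable def nL (σ : Equiv.Perm P) (b : P → Bool) (e : P) : ℕ :=
  ((range (Function.minimalPeriod σ e)).filter (fun k => b ((σ ^ k) e) = true)).card

/-- number of right steps on the cycle of `e` -/
noncomputable def nR (σ : Equiv.Perm P) (b : P → Bool) (e : P) : ℕ :=
  ((range (Function.minimalPeriod σ e)).filter (fun k => b ((σ ^ k) e) = false)).card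

omit [Fintype P] in
theorem nL_add_nR (σ : Equiv.Perm P) (b : P → Bool) (e : P) :
    nL σ b e + nR σ b e = Function.minimalPeriod σ e := by
  unfold nL nR
  have e1 : (range (Function.minimalPeriod σ e)).filter (fun k => b ((σ ^ k) e) = false)
      = (range (Function.minimalPeriod σ e)).filter (fun k => ¬ (b ((σ ^ k) e) = true)) := by
    apply filter_congr
    intro k _
    simp
  rw [e1, card_filter_add_card_filter_not, card_range]

omit [Fintype P] in
/-- Lemma Q on one cycle of a permutation -/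
theorem cycle_q (σ : Equiv.Perm P) (L R : P → ℂ) (b : P → Bool)
    (h1 : ∀ e, b e = true → R (σ e) = R e) (h2 : ∀ e, b e = false → L (σ e) = L e) (e : P) :
    |∑ k ∈ range (Function.minimalPeriod σ e),
        fj (L ((σ ^ k) e)) (R ((σ ^ k) e)) (L ((σ ^ (k + 1)) e)) (R ((σ ^ (k + 1)) e))| ≤
      Real.sqrt ((nL σ b e : ℝ) * (nR σ b e : ℝ)) / 4
      * ∑ k ∈ range (Function.minimalPeriod σ e),
        fu (L ((σ ^ k) e)) (R ((σ ^ k) e)) (L ((σ ^ (k + 1)) e)) (R ((σ ^ (k + 1)) e)) := by
  have hper : (σ ^ Function.minimalPeriod σ e) e = e := by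
    rw [Equiv.Perm.coe_pow]
    exact Function.iterate_minimalPeriod
  refine circle_q (n := Function.minimalPeriod σ e) (fun k => L ((σ ^ k) e)) (fun k => R ((σ ^ k) e))
    (by simp only [hper, pow_zero, Equiv.Perm.one_apply])
    (by simp only [hper, pow_zero, Equiv.Perm.one_apply]) (fun k => b ((σ ^ k) e)) (fun k hk => ?_)
    (fun k hk => ?_)
  · simp only [pow_succ', Equiv.Perm.mul_apply]
    exact h1 _ hk
  · simp only [pow_succ', Equiv.Perm.mul_apply]
    exact h2 _ hk

/-- the weight of a circle for the criterion with parameter `α` -/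
noncomputable def wt (α : ℝ) (σ : Equiv.Perm P) (b : P → Bool) (e : P) : ℝ :=
  α * bet (Function.minimalPeriod σ e) + (1 - α) * (Real.sqrt ((nL σ b e : ℝ) * (nR σ b e : ℝ)) / 4)

/-- coupling and area on one cycle, all `α` between 0 and 1 -/
theorem cycle_wt {α : ℝ} (h0 : 0 ≤ α) (h1' : α ≤ 1) (σ : Equiv.Perm P) (L R : P → ℂ) (b : P → Bool)
    (h1 : ∀ e, b e = true → R (σ e) = R e) (h2 : ∀ e, b e = false → L (σ e) = L e) (e : P) :
    |∑ k ∈ range (Function.minimalPeriod σ e),
        fj (L ((σ ^ k) e)) (R ((σ ^ k) e)) (L ((σ ^ (k + 1)) e)) (R ((σ ^ (k + 1)) e))| +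
      α * |∑ k ∈ range (Function.minimalPeriod σ e),
        fa (L ((σ ^ k) e)) (R ((σ ^ k) e)) (L ((σ ^ (k + 1)) e)) (R ((σ ^ (k + 1)) e))| ≤
      wt α σ b e * ∑ k ∈ range (Function.minimalPeriod σ e),
        fu (L ((σ ^ k) e)) (R ((σ ^ k) e)) (L ((σ ^ (k + 1)) e)) (R ((σ ^ (k + 1)) e)) := by
  have hA := cycle_bound σ L R (fun e => by
    by_cases hb : b e = true
    · exact Or.inr (h1 e hb)
    · exact Or.inl (h2 e (by simpa using hb))) e
  have hB := cycle_q σ L R b h1 h2 e
  unfold wt
  set J := ∑ k ∈ range (Function.minimalPeriod σ e),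
        fj (L ((σ ^ k) e)) (R ((σ ^ k) e)) (L ((σ ^ (k + 1)) e)) (R ((σ ^ (k + 1)) e)) with hJ
  set A := ∑ k ∈ range (Function.minimalPeriod σ e),
        fa (L ((σ ^ k) e)) (R ((σ ^ k) e)) (L ((σ ^ (k + 1)) e)) (R ((σ ^ (k + 1)) e)) with hAd
  set U := ∑ k ∈ range (Function.minimalPeriod σ e),
        fu (L ((σ ^ k) e)) (R ((σ ^ k) e)) (L ((σ ^ (k + 1)) e)) (R ((σ ^ (k + 1)) e)) with hU
  have h3 := mul_le_mul_of_nonneg_left hA h0
  have h4 := mul_le_mul_of_nonneg_left hB (by linarith : 0 ≤ 1 - α)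
  nlinarith

omit [Fintype P] in
/-- the counts are constant on cycles -/
theorem nL_apply (σ : Equiv.Perm P) (b : P → Bool) (e : P) (he : 0 < Function.minimalPeriod σ e) :
    nL σ b (σ e) = nL σ b e := by
  have hp : Function.minimalPeriod σ (σ e) = Function.minimalPeriod σ e :=
    Function.minimalPeriod_apply (Function.minimalPeriod_pos_iff_mem_periodicPts.mp he)
  have hper : (σ ^ Function.minimalPeriod σ e) e = e := by
    rw [Equiv.Perm.coe_pow]
    exact Function.iterate_minimalPeriod
  unfold nL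
  rw [hp, card_filter, card_filter]
  have e1 : ∀ k, (if b ((σ ^ k) (σ e)) = true then 1 else 0)
      = (fun k => if b ((σ ^ k) e) = true then 1 else 0) (k + 1) := by
    intro k
    simp only [pow_succ, Equiv.Perm.mul_apply]
  simp only [e1]
  have h1 := sum_range_succ (fun k => if b ((σ ^ k) e) = true then 1 else 0) (Function.minimalPeriod σ e)
  have h2 := sum_range_succ' (fun k => if b ((σ ^ k) e) = true then 1 else 0) (Function.minimalPeriod σ e)
  simp only [hper] at h1
  simp only [pow_zero, Equiv.Perm.one_apply] at h2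
  omega

omit [Fintype P] in
theorem nR_apply (σ : Equiv.Perm P) (b : P → Bool) (e : P) (he : 0 < Function.minimalPeriod σ e) :
    nR σ b (σ e) = nR σ b e := by
  have h1 := nL_add_nR σ b (σ e)
  have h2 := nL_add_nR σ b e
  have h3 := nL_apply σ b e he
  have hp : Function.minimalPeriod σ (σ e) = Function.minimalPeriod σ e :=
    Function.minimalPeriod_apply (Function.minimalPeriod_pos_iff_mem_periodicPts.mp he)
  omega

theorem wt_apply (α : ℝ) (σ : Equiv.Perm P) (b : P → Bool) (e : P) : wt α σ b (σ e) = wt α σ b e := by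
  have he := period_pos σ e
  have hp : Function.minimalPeriod σ (σ e) = Function.minimalPeriod σ e :=
    Function.minimalPeriod_apply (Function.minimalPeriod_pos_iff_mem_periodicPts.mp he)
  unfold wt
  rw [hp, nL_apply σ b e he, nR_apply σ b e he]

/-- **the whole set**, weights `wt` -/
theorem perm_wt {α : ℝ} (h0 : 0 ≤ α) (h1' : α ≤ 1) (σ : Equiv.Perm P) (L R : P → ℂ) (b : P → Bool)
    (h1 : ∀ e, b e = true → R (σ e) = R e) (h2 : ∀ e, b e = false → L (σ e) = L e) :
    |∑ e, fj (L e) (R e) (L (σ e)) (R (σ e))| + α * |∑ e, fa (L e) (R e) (L (σ e)) (R (σ e))| ≤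
      ∑ e, wt α σ b e * fu (L e) (R e) (L (σ e)) (R (σ e)) :=
  perm_bound_of σ L R h0 (wt α σ b) (wt_apply α σ b) (fun e => cycle_wt h0 h1' σ L R b h1 h2 e)

omit [Fintype P] in
/-- a one-sided circle has `nL * nR = 0` -/
theorem wt_one_sided (σ : Equiv.Perm P) (b : P → Bool) (e : P) (α : ℝ)
    (h : nL σ b e = 0 ∨ nR σ b e = 0) : wt α σ b e = α * bet (Function.minimalPeriod σ e) := by
  unfold wt
  rcases h with h | h <;> rw [h] <;> simp

end Pool.Agent.Helper30.VQ
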