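import Pool.Agent.Helper59.V8.Sector

/-!
The margin inequality for blocks of `m` parallel crossings (`q = (1 + r) / (1 - r)`, `r = (-s^2)^m`).
-/

set_option autoImplicit false

namespace Pool.Agent.Helper30.VQ

open Complex

lemma q0 {t : ℝ} (ht : 0 ≤ t) :
    0 < t ^ 6 + t ^ 5 - 18 * t ^ 4 - 11 * t ^ 3 + 103 * t ^ 2 + 204 * t + 144 := by
  nlinarith [sq_nonneg (t ^ 3 + t ^ 2 / 2 - 73 / 8 * t - 15 / 16), sq_nonneg t]

lemma q2 {t : ℝ} (ht : 0 ≤ t) :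
    0 < 3 * t ^ 5 - 4 * t ^ 4 - 43 * t ^ 3 + 75 * t ^ 2 + 48 * t + 12 := by
  have h1 : 0 ≤ t * (t ^ 2 - t - 459 / 100) ^ 2 := mul_nonneg ht (sq_nonneg _)
  have h2 := sq_nonneg (t ^ 2 - 4615 / 1000 * t + 8 / 10)
  nlinarith [h1, h2, sq_nonneg t, sq_nonneg (t - 1 / 8)]

lemma q1 {t : ℝ} (ht : 0 ≤ t) :
    2 * 1.7321 / 3 * ((t + 1) * (4 * (t + 1) ^ 4 + 8 * (t + 1) ^ 2 - 1))
      < (t + 1 + 1) * ((t + 1) ^ 3 + 3) * ((t + 1) ^ 2 + 3) := by
  have h1 := sq_nonneg (t ^ 3 + 119 / 100 * t ^ 2 - t - 3009 / 1000)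
  have h2 := sq_nonneg (t ^ 2 - 38 / 10)
  have h3 : 0 ≤ t ^ 3 := by positivity
  have h4 : 0 ≤ t ^ 5 := by positivity
  nlinarith [h1, h2, h3, h4, sq_nonneg t]

/-- the case `α = 0`, at least three crossings -/
lemma caseA0 {n Y : ℝ} (hn0 : 0 < n) (hn1 : n < 1) (_hY0 : 0 ≤ Y)
    (hY : 4 * (1 - n + n ^ 2) * Y ^ 2 < 3 * n * (1 - n) ^ 2) :
    2 * √3 * Y * (1 + n ^ 3) < ((1 + n) ^ 2 - 4 * Y ^ 2) * (1 + n + n ^ 2) := by
  have hW : 0 < 1 - n + n ^ 2 := by nlinarith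
  have hA0 : 0 < 1 - 2 * n + 6 * n ^ 2 - 2 * n ^ 3 + n ^ 4 := by
    have e : 1 - 2 * n + 6 * n ^ 2 - 2 * n ^ 3 + n ^ 4 = (1 - n) ^ 2 + n ^ 2 * (5 - 2 * n + n ^ 2) := by
      ring
    have h1 : 0 < n ^ 2 * (5 - 2 * n + n ^ 2) := by
      apply mul_pos (by positivity); nlinarith
    rw [e]; nlinarith [sq_nonneg (1 - n)]
  have hN : 0 < 1 + n + n ^ 2 := by positivity
  have hA : (1 - 2 * n + 6 * n ^ 2 - 2 * n ^ 3 + n ^ 4) * (1 + n + n ^ 2)
      < ((1 + n) ^ 2 - 4 * Y ^ 2) * (1 + n + n ^ 2) * (1 - n + n ^ 2) := by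
    have h1 : 1 - 2 * n + 6 * n ^ 2 - 2 * n ^ 3 + n ^ 4
        < ((1 + n) ^ 2 - 4 * Y ^ 2) * (1 - n + n ^ 2) := by nlinarith
    have h2 := mul_lt_mul_of_pos_right h1 hN
    nlinarith
  have key : 9 * n * (1 - n) ^ 2 * (1 + n) ^ 2 * (1 - n + n ^ 2) ^ 3
      < ((1 - 2 * n + 6 * n ^ 2 - 2 * n ^ 3 + n ^ 4) * (1 + n + n ^ 2)) ^ 2 := by
    obtain ⟨t, ht⟩ : ∃ t, t = (1 - n) ^ 2 / n := ⟨_, rfl⟩
    have ht0 : 0 ≤ t := by rw [ht]; positivity
    have e : ((1 - 2 * n + 6 * n ^ 2 - 2 * n ^ 3 + n ^ 4) * (1 + n + n ^ 2)) ^ 2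
        - 9 * n * (1 - n) ^ 2 * (1 + n) ^ 2 * (1 - n + n ^ 2) ^ 3
        = n ^ 6 * (t ^ 6 + t ^ 5 - 18 * t ^ 4 - 11 * t ^ 3 + 103 * t ^ 2 + 204 * t + 144) := by
      rw [ht]; field_simp; ring
    have h1 : 0 < n ^ 6 * (t ^ 6 + t ^ 5 - 18 * t ^ 4 - 11 * t ^ 3 + 103 * t ^ 2 + 204 * t + 144) :=
      mul_pos (by positivity) (q0 ht0)
    linarith
  have h12 : (2 * √3 * Y * (1 + n ^ 3) * (1 - n + n ^ 2)) ^ 2
      < (((1 + n) ^ 2 - 4 * Y ^ 2) * (1 + n + n ^ 2) * (1 - n + n ^ 2)) ^ 2 := by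
    have e1 : (2 * √3 * Y * (1 + n ^ 3) * (1 - n + n ^ 2)) ^ 2
        = 3 * (4 * (1 - n + n ^ 2) * Y ^ 2) * ((1 + n) ^ 2 * (1 - n + n ^ 2) ^ 3) := by
      have h3 : √3 ^ 2 = 3 := Real.sq_sqrt (by norm_num)
      have e2 : (2 * √3 * Y * (1 + n ^ 3) * (1 - n + n ^ 2)) ^ 2
        = 4 * √3 ^ 2 * Y ^ 2 * (1 + n ^ 3) ^ 2 * (1 - n + n ^ 2) ^ 2 := by ring
      rw [e2, h3]; ring
    have h1 : 3 * (4 * (1 - n + n ^ 2) * Y ^ 2) * ((1 + n) ^ 2 * (1 - n + n ^ 2) ^ 3)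
        ≤ 3 * (3 * n * (1 - n) ^ 2) * ((1 + n) ^ 2 * (1 - n + n ^ 2) ^ 3) := by
      apply mul_le_mul_of_nonneg_right _ (by positivity)
      linarith
    have h2 : ((1 - 2 * n + 6 * n ^ 2 - 2 * n ^ 3 + n ^ 4) * (1 + n + n ^ 2)) ^ 2
        ≤ (((1 + n) ^ 2 - 4 * Y ^ 2) * (1 + n + n ^ 2) * (1 - n + n ^ 2)) ^ 2 :=
      pow_le_pow_left₀ (by positivity) hA.le 2
    rw [e1]
    calc 3 * (4 * (1 - n + n ^ 2) * Y ^ 2) * ((1 + n) ^ 2 * (1 - n + n ^ 2) ^ 3)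
        ≤ 3 * (3 * n * (1 - n) ^ 2) * ((1 + n) ^ 2 * (1 - n + n ^ 2) ^ 3) := h1
      _ = 9 * n * (1 - n) ^ 2 * (1 + n) ^ 2 * (1 - n + n ^ 2) ^ 3 := by ring
      _ < _ := key
      _ ≤ _ := h2
  have h13 : 2 * √3 * Y * (1 + n ^ 3) * (1 - n + n ^ 2)
      < ((1 + n) ^ 2 - 4 * Y ^ 2) * (1 + n + n ^ 2) * (1 - n + n ^ 2) :=
    lt_of_pow_lt_pow_left₀ 2 (le_trans (by positivity) hA.le) h12
  exact lt_of_mul_lt_mul_right h13 hW.le

/-- the case `α = 0`, two crossings -/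
lemma caseA2 {n Y : ℝ} (hn0 : 0 < n) (hn1 : n < 1) (_hY0 : 0 ≤ Y)
    (hY : 4 * (1 - n + n ^ 2) * Y ^ 2 < 3 * n * (1 - n) ^ 2) :
    10 * Y * ((1 - n) ^ 2 + 4 * Y ^ 2) < 3 * (1 + n) * (1 + n ^ 2) := by
  have hW : 0 < 1 - n + n ^ 2 := by nlinarith
  have hD0 : 0 ≤ (1 - n) ^ 2 + 4 * Y ^ 2 := by positivity
  have hD : ((1 - n) ^ 2 + 4 * Y ^ 2) * (1 - n + n ^ 2) ≤ (1 - n) ^ 2 * (1 + n) ^ 2 := by nlinarith
  have key : 25 * n * (1 - n) ^ 6 * (1 + n) ^ 2 < 3 * (1 + n ^ 2) ^ 2 * (1 - n + n ^ 2) ^ 3 := by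
    obtain ⟨t, ht⟩ : ∃ t, t = (1 - n) ^ 2 / n := ⟨_, rfl⟩
    have ht0 : 0 ≤ t := by rw [ht]; positivity
    have e : 3 * (1 + n ^ 2) ^ 2 * (1 - n + n ^ 2) ^ 3 - 25 * n * (1 - n) ^ 6 * (1 + n) ^ 2
        = n ^ 5 * (3 * t ^ 5 - 4 * t ^ 4 - 43 * t ^ 3 + 75 * t ^ 2 + 48 * t + 12) := by
      rw [ht]; field_simp; ring
    have h1 : 0 < n ^ 5 * (3 * t ^ 5 - 4 * t ^ 4 - 43 * t ^ 3 + 75 * t ^ 2 + 48 * t + 12) :=
      mul_pos (by positivity) (q2 ht0)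
    linarith
  have h12 : (10 * Y * ((1 - n) ^ 2 + 4 * Y ^ 2)) ^ 2 * (1 - n + n ^ 2) ^ 3
      < (3 * (1 + n) * (1 + n ^ 2)) ^ 2 * (1 - n + n ^ 2) ^ 3 := by
    have h1 : (((1 - n) ^ 2 + 4 * Y ^ 2) * (1 - n + n ^ 2)) ^ 2 ≤ ((1 - n) ^ 2 * (1 + n) ^ 2) ^ 2 :=
      pow_le_pow_left₀ (by positivity) hD 2
    calc (10 * Y * ((1 - n) ^ 2 + 4 * Y ^ 2)) ^ 2 * (1 - n + n ^ 2) ^ 3
        = 25 * (4 * (1 - n + n ^ 2) * Y ^ 2) * (((1 - n) ^ 2 + 4 * Y ^ 2) * (1 - n + n ^ 2)) ^ 2 := by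
          ring
      _ ≤ 25 * (3 * n * (1 - n) ^ 2) * ((1 - n) ^ 2 * (1 + n) ^ 2) ^ 2 := by
          apply mul_le_mul (by linarith) h1 (by positivity) (by positivity)
      _ = (25 * n * (1 - n) ^ 6 * (1 + n) ^ 2) * (3 * (1 + n) ^ 2) := by ring
      _ < (3 * (1 + n ^ 2) ^ 2 * (1 - n + n ^ 2) ^ 3) * (3 * (1 + n) ^ 2) :=
          mul_lt_mul_of_pos_right key (by positivity)
      _ = (3 * (1 + n) * (1 + n ^ 2)) ^ 2 * (1 - n + n ^ 2) ^ 3 := by ring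
  have h13 := lt_of_mul_lt_mul_right h12 (by positivity)
  exact lt_of_pow_lt_pow_left₀ 2 (by positivity) h13

/-- the case `α = 1`, at least two crossings -/
lemma caseA1 {n X Y : ℝ} (hn0 : 0 < n) (hn1 : n < 1) (hX0 : 0 ≤ X) (hY0 : 0 ≤ Y)
    (hY : 4 * (1 - n + n ^ 2) * Y ^ 2 < 3 * n * (1 - n) ^ 2)
    (hX : n * (1 + n) ^ 2 < 4 * (1 - n + n ^ 2) * X ^ 2) :
    Y * (2 * n ^ 2 + 8 / 3 * (1 - n ^ 4))
      < ((1 + n) ^ 2 / 2 - 2 * Y ^ 2 + X * (1 + n)) * (1 - n) * (1 + n) ^ 2 := by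
  have hW : 0 < 1 - n + n ^ 2 := by nlinarith
  obtain ⟨g, hg⟩ : ∃ g, g = √((1 - n + n ^ 2) / n) := ⟨_, rfl⟩
  have hgg : g ^ 2 = (1 - n + n ^ 2) / n := by rw [hg]; exact Real.sq_sqrt (by positivity)
  have hgn : g ^ 2 * n = 1 - n + n ^ 2 := by rw [hgg]; field_simp
  have hg0 : 0 ≤ g := by rw [hg]; positivity
  have hg1 : 1 ≤ g := by
    by_contra hc
    push Not at hc
    have h1 : g ^ 2 < 1 := by nlinarith
    have h2 : g ^ 2 * n < n := by nlinarith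
    nlinarith [sq_nonneg (1 - n)]
  have ha : 0 < 1 - n := by linarith
  have h3 : √3 ^ 2 = 3 := Real.sq_sqrt (by norm_num)
  have h30 : 0 ≤ √3 := Real.sqrt_nonneg _
  have hs3 : √3 ≤ 1.7321 := by
    rw [Real.sqrt_le_left (by norm_num)]
    norm_num
  -- Y
  have hgY : 2 * g * Y ≤ √3 * (1 - n) := by
    apply le_of_sq_le_sq' _ (by positivity)
    have e1 : (2 * g * Y) ^ 2 * n = 4 * (1 - n + n ^ 2) * Y ^ 2 := by rw [← hgn]; ring
    have e2 : (√3 * (1 - n)) ^ 2 = 3 * (1 - n) ^ 2 := by rw [mul_pow, h3]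
    rw [e2]
    have h5 : (2 * g * Y) ^ 2 * n ≤ 3 * (1 - n) ^ 2 * n := by rw [e1]; linarith
    exact le_of_mul_le_mul_right h5 hn0
  have hgX : (1 + n) ≤ 2 * g * X := by
    apply le_of_sq_le_sq' _ (by positivity)
    have e1 : (2 * g * X) ^ 2 * n = 4 * (1 - n + n ^ 2) * X ^ 2 := by rw [← hgn]; ring
    have h5 : (1 + n) ^ 2 * n ≤ (2 * g * X) ^ 2 * n := by rw [e1]; linarith
    exact le_of_mul_le_mul_right h5 hn0
  have en1 : (1 + n) ^ 2 = n * (g ^ 2 + 3) := by linear_combination -hgn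
  have en2 : (1 - n) ^ 2 = n * (g ^ 2 - 1) := by linear_combination -hgn
  have en4 : 1 + n ^ 4 = n ^ 2 * (g ^ 4 + 2 * g ^ 2 - 1) := by
    have h1 : 1 + n ^ 2 = n * (g ^ 2 + 1) := by linear_combination -hgn
    have h2 : 1 + n ^ 4 = (1 + n ^ 2) ^ 2 - 2 * n ^ 2 := by ring
    rw [h2, h1]; ring
  -- left side
  have hL : 2 * g ^ 2 * (Y * (2 * n ^ 2 + 8 / 3 * (1 - n ^ 4)))
      ≤ g * (√3 * (1 - n)) * (n ^ 2 * (2 * (4 * g ^ 4 + 8 * g ^ 2 - 1) / 3)) := by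
    have h1 : 2 * n ^ 2 + 8 / 3 * (1 - n ^ 4) ≤ n ^ 2 * (2 * (4 * g ^ 4 + 8 * g ^ 2 - 1) / 3) := by
      have h2 : 2 * n ^ 2 + 8 / 3 * (1 - n ^ 4) ≤ 2 * n ^ 2 + 8 / 3 * (1 + n ^ 4) := by
        have : 0 ≤ n ^ 4 := by positivity
        linarith
      rw [en4] at h2
      linarith
    have h0 : 0 ≤ 2 * n ^ 2 + 8 / 3 * (1 - n ^ 4) := by
      have : n ^ 4 ≤ 1 := pow_le_one₀ hn0.le hn1.le
      have : 0 ≤ n ^ 2 := by positivity
      linarith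
    calc 2 * g ^ 2 * (Y * (2 * n ^ 2 + 8 / 3 * (1 - n ^ 4)))
        = g * (2 * g * Y) * (2 * n ^ 2 + 8 / 3 * (1 - n ^ 4)) := by ring
      _ ≤ g * (√3 * (1 - n)) * (2 * n ^ 2 + 8 / 3 * (1 - n ^ 4)) := by
          apply mul_le_mul_of_nonneg_right _ h0
          exact mul_le_mul_of_nonneg_left hgY hg0
      _ ≤ _ := by
          apply mul_le_mul_of_nonneg_left h1 (by positivity)
  -- right side
  have hR : n ^ 2 * (1 - n) * (g ^ 2 + 3) * ((g + 1) * (g ^ 3 + 3))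
      ≤ 2 * g ^ 2 * (((1 + n) ^ 2 / 2 - 2 * Y ^ 2 + X * (1 + n)) * (1 - n) * (1 + n) ^ 2) := by
    have h1 : n * ((g + 1) * (g ^ 3 + 3))
        ≤ 2 * g ^ 2 * ((1 + n) ^ 2 / 2 - 2 * Y ^ 2 + X * (1 + n)) := by
      have h2 : (2 * g * Y) ^ 2 ≤ 3 * (1 - n) ^ 2 := by
        have := pow_le_pow_left₀ (by positivity) hgY 2
        rwa [mul_pow (√3), h3] at this
      have h4 : g * ((1 + n) * (1 + n)) ≤ g * ((2 * g * X) * (1 + n)) := by
        apply mul_le_mul_of_nonneg_left _ hg0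
        exact mul_le_mul_of_nonneg_right hgX (by positivity)
      have e1 : 2 * g ^ 2 * ((1 + n) ^ 2 / 2 - 2 * Y ^ 2 + X * (1 + n))
          = g ^ 2 * (1 + n) ^ 2 - (2 * g * Y) ^ 2 + g * ((2 * g * X) * (1 + n)) := by ring
      have e2 : g * ((1 + n) * (1 + n)) = g * (1 + n) ^ 2 := by ring
      rw [e1]
      rw [e2] at h4
      have e3 : n * ((g + 1) * (g ^ 3 + 3)) = g ^ 2 * (1 + n) ^ 2 - 3 * (1 - n) ^ 2 + g * (1 + n) ^ 2 := by
        rw [en1, en2]; ring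
      rw [e3]
      linarith
    calc n ^ 2 * (1 - n) * (g ^ 2 + 3) * ((g + 1) * (g ^ 3 + 3))
        = n * ((g + 1) * (g ^ 3 + 3)) * ((1 - n) * (n * (g ^ 2 + 3))) := by ring
      _ ≤ 2 * g ^ 2 * ((1 + n) ^ 2 / 2 - 2 * Y ^ 2 + X * (1 + n)) * ((1 - n) * (n * (g ^ 2 + 3))) := by
          apply mul_le_mul_of_nonneg_right h1 (by positivity)
      _ = _ := by rw [← en1]; ring
  -- compare
  have hC : g * (√3 * (1 - n)) * (n ^ 2 * (2 * (4 * g ^ 4 + 8 * g ^ 2 - 1) / 3))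
      < n ^ 2 * (1 - n) * (g ^ 2 + 3) * ((g + 1) * (g ^ 3 + 3)) := by
    have h1 := q1 (t := g - 1) (by linarith)
    rw [sub_add_cancel] at h1
    have h4 : 0 ≤ g * (4 * g ^ 4 + 8 * g ^ 2 - 1) := by
      apply mul_nonneg hg0
      have : 1 ≤ g ^ 2 := by nlinarith
      have : 0 ≤ g ^ 4 := by positivity
      linarith
    have h5 : 2 * √3 / 3 * (g * (4 * g ^ 4 + 8 * g ^ 2 - 1)) < (g + 1) * (g ^ 3 + 3) * (g ^ 2 + 3) := by
      refine lt_of_le_of_lt ?_ h1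
      apply mul_le_mul_of_nonneg_right _ h4
      linarith
    have h6 : 0 < n ^ 2 * (1 - n) := by positivity
    have h7 := mul_lt_mul_of_pos_left h5 h6
    calc g * (√3 * (1 - n)) * (n ^ 2 * (2 * (4 * g ^ 4 + 8 * g ^ 2 - 1) / 3))
        = n ^ 2 * (1 - n) * (2 * √3 / 3 * (g * (4 * g ^ 4 + 8 * g ^ 2 - 1))) := by ring
      _ < _ := h7
      _ = _ := by ring
  have hfin := lt_of_le_of_lt hL (lt_of_lt_of_le hC hR)
  exact lt_of_mul_lt_mul_left hfin (by positivity)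
where
  le_of_sq_le_sq' {x y : ℝ} (h : x ^ 2 ≤ y ^ 2) (hy : 0 ≤ y) : x ≤ y :=
    abs_le_of_sq_le_sq' h hy |>.2

/-- the real part of `(1 + r) / (1 - r)` -/
lemma qre_eq (r : ℂ) : ((1 + r) / (1 - r)).re = (1 - normSq r) / normSq (1 - r) := by
  rw [div_re, normSq_apply r]
  simp only [add_re, one_re, sub_re, add_im, one_im, sub_im]
  ring

lemma qim_eq (r : ℂ) : ((1 + r) / (1 - r)).im = 2 * r.im / normSq (1 - r) := by
  rw [div_im]
  simp only [add_re, one_re, sub_re, add_im, one_im, sub_im]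
  ring

lemma normSq_one_sub (r : ℂ) : normSq (1 - r) = 1 - 2 * r.re + normSq r := by
  rw [normSq_apply, normSq_apply]
  simp only [one_re, sub_re, one_im, sub_im]
  ring

lemma qre_ge {r : ℂ} {p P : ℝ} (hp : ‖r‖ = p) (hpP : p ≤ P) (hP : P < 1) :
    (1 - P) / (1 + P) ≤ ((1 + r) / (1 - r)).re := by
  have hp0 : 0 ≤ p := by rw [← hp]; exact norm_nonneg _
  have hsq : normSq r = p ^ 2 := by rw [normSq_eq_norm_sq, hp]
  rw [qre_eq, normSq_one_sub, hsq]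
  have hre := Complex.abs_re_le_norm r
  rw [hp] at hre
  have h1 := abs_le.mp hre
  have hD : 0 < 1 - 2 * r.re + p ^ 2 := by nlinarith
  rw [div_le_div_iff₀ (by linarith) hD]
  have h2 : 1 - 2 * r.re + p ^ 2 ≤ (1 + p) ^ 2 := by nlinarith
  calc (1 - P) * (1 - 2 * r.re + p ^ 2) ≤ (1 - P) * (1 + p) ^ 2 :=
        mul_le_mul_of_nonneg_left h2 (by linarith)
    _ ≤ (1 - p ^ 2) * (1 + P) := by
        have : (1 - p ^ 2) * (1 + P) - (1 - P) * (1 + p) ^ 2 = 2 * (1 + p) * (P - p) := by ring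
        nlinarith

lemma qim_le {r : ℂ} {p P : ℝ} (hp : ‖r‖ = p) (hpP : p ≤ P) (hP : P < 1) :
    |((1 + r) / (1 - r)).im| ≤ 2 * P / (1 - P ^ 2) := by
  have hp0 : 0 ≤ p := by rw [← hp]; exact norm_nonneg _
  have hsq : normSq r = p ^ 2 := by rw [normSq_eq_norm_sq, hp]
  rw [qim_eq, normSq_one_sub, hsq]
  have hre := Complex.abs_re_le_norm r
  rw [hp] at hre
  have h1 := abs_le.mp hre
  have hD : 0 < 1 - 2 * r.re + p ^ 2 := by nlinarith
  have hab : r.re ^ 2 + r.im ^ 2 = p ^ 2 := by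
    rw [← hsq, normSq_apply]; ring
  rw [abs_div, abs_of_pos hD, abs_mul, abs_two]
  have hp1 : 0 < 1 - p ^ 2 := by nlinarith
  have hP1 : 0 < 1 - P ^ 2 := by nlinarith
  have h2 : |r.im| * (1 - p ^ 2) ≤ p * (1 - 2 * r.re + p ^ 2) := by
    have h3 : 2 * r.re * p + |r.im| * (1 - p ^ 2) ≤ p * (1 + p ^ 2) := by
      have h4 : (2 * r.re * p + |r.im| * (1 - p ^ 2)) ^ 2 ≤ (p * (1 + p ^ 2)) ^ 2 := by
        have h5 : |r.im| ^ 2 = r.im ^ 2 := sq_abs _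
        have e1 : (p * (1 + p ^ 2)) ^ 2 - (2 * r.re * p + |r.im| * (1 - p ^ 2)) ^ 2
            = (r.re * (1 - p ^ 2) - 2 * p * |r.im|) ^ 2
              + (p ^ 2 - (r.re ^ 2 + |r.im| ^ 2)) * (1 + p ^ 2) ^ 2 := by ring
        rw [h5, hab] at e1
        nlinarith [sq_nonneg (r.re * (1 - p ^ 2) - 2 * p * |r.im|)]
      exact (abs_le_of_sq_le_sq' h4 (by positivity)).2
    linarith
  calc 2 * |r.im| / (1 - 2 * r.re + p ^ 2) ≤ 2 * p / (1 - p ^ 2) := by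
        rw [div_le_div_iff₀ hD hp1]; linarith
    _ ≤ 2 * P / (1 - P ^ 2) := by
        rw [div_le_div_iff₀ hp1 hP1]
        have h6 : p ^ 2 ≤ P ^ 2 := pow_le_pow_left₀ hp0 hpP 2
        nlinarith

/-- the data of `v = s + s⁻¹` -/
lemma v_data {s : ℂ} (hs0 : s ≠ 0) :
    (s + s⁻¹).re = s.re * (1 + normSq s) / normSq s ∧ (s + s⁻¹).im = -(s.im * (1 - normSq s) / normSq s) ∧
    normSq (s + s⁻¹) = ((1 + normSq s) ^ 2 - 4 * s.im ^ 2) / normSq s := by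
  have hn0 : 0 < normSq s := normSq_pos.2 hs0
  have hre : (s + s⁻¹).re = s.re * (1 + normSq s) / normSq s := by
    rw [add_re, inv_re]; field_simp; ring
  have him : (s + s⁻¹).im = -(s.im * (1 - normSq s) / normSq s) := by
    rw [add_im, inv_im]; field_simp; ring
  refine ⟨hre, him, ?_⟩
  have hx : s.re ^ 2 = normSq s - s.im ^ 2 := by rw [normSq_apply]; ring
  rw [normSq_apply (s + s⁻¹), hre, him]
  have e1 : s.re * (1 + normSq s) / normSq s * (s.re * (1 + normSq s) / normSq s)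
      + -(s.im * (1 - normSq s) / normSq s) * -(s.im * (1 - normSq s) / normSq s)
      = (s.re ^ 2 * (1 + normSq s) ^ 2 + s.im ^ 2 * (1 - normSq s) ^ 2) / normSq s ^ 2 := by
    field_simp
  rw [e1, hx]
  field_simp
  ring

/-- the sector hypothesis in real coordinates -/
lemma sec_data {s : ℂ} (hs0 : s ≠ 0) (hsec : (s⁻¹ - s).im ^ 2 < 3 * (s⁻¹ - s).re ^ 2) :
    (s.im * (1 + normSq s)) ^ 2 < 3 * (s.re * (1 - normSq s)) ^ 2 ∧
    4 * (1 - normSq s + normSq s ^ 2) * |s.im| ^ 2 < 3 * normSq s * (1 - normSq s) ^ 2 ∧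
    normSq s * (1 + normSq s) ^ 2 < 4 * (1 - normSq s + normSq s ^ 2) * |s.re| ^ 2 := by
  have hn0 : 0 < normSq s := normSq_pos.2 hs0
  have hre : (s⁻¹ - s).re = s.re * (1 - normSq s) / normSq s := by
    rw [sub_re, inv_re]; field_simp
  have him : (s⁻¹ - s).im = -(s.im * (1 + normSq s)) / normSq s := by
    rw [sub_im, inv_im]; field_simp; ring
  have hx : s.re ^ 2 = normSq s - s.im ^ 2 := by rw [normSq_apply]; ring
  have h1 : (s.im * (1 + normSq s)) ^ 2 < 3 * (s.re * (1 - normSq s)) ^ 2 := by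
    rw [hre, him, div_pow, div_pow, neg_sq, mul_div_assoc', div_lt_div_iff_of_pos_right (by positivity)] at hsec
    exact hsec
  refine ⟨h1, ?_, ?_⟩
  · rw [sq_abs]
    rw [mul_pow, mul_pow, hx] at h1
    nlinarith
  · rw [sq_abs, hx]
    rw [mul_pow, mul_pow, hx] at h1
    nlinarith

/-- the margin for a single crossing -/
lemma margin_one {s : ℂ} (hs0 : s ≠ 0) (hs : ‖s‖ < 1) (hsec : (s⁻¹ - s).im ^ 2 < 3 * (s⁻¹ - s).re ^ 2)
    {al : ℝ} (h0 : 0 ≤ al) (h1 : al ≤ 1) :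
    (√3 + 9 / 10 * al) * |(s + s⁻¹).im| < normSq (s + s⁻¹) / 2 * ((1 + -s ^ 2) / (1 - -s ^ 2)).re +
      al * ((if 0 ≤ s.re then 1 else -1) * ((s + s⁻¹) * ((1 + -s ^ 2) / (1 - -s ^ 2))).re) := by
  have hn0 : 0 < normSq s := normSq_pos.2 hs0
  have hn1 : normSq s < 1 := by
    rw [normSq_eq_norm_sq]; nlinarith [norm_nonneg s]
  obtain ⟨hvre, hvim, hv⟩ := v_data hs0
  obtain ⟨hT, -, -⟩ := sec_data hs0 hsec
  have hne : (1 : ℂ) - -s ^ 2 ≠ 0 := by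
    intro h
    have h2 : s ^ 2 = -1 := by linear_combination h
    have h3 : ‖s ^ 2‖ = 1 := by rw [h2]; simp
    rw [norm_pow] at h3
    nlinarith [norm_nonneg s]
  have hvq : (s + s⁻¹) * ((1 + -s ^ 2) / (1 - -s ^ 2)) = s⁻¹ - s := by
    field_simp
    ring
  have hzre : (s⁻¹ - s).re = s.re * (1 - normSq s) / normSq s := by
    rw [sub_re, inv_re]; field_simp
  have hzim : (s⁻¹ - s).im = -(s.im * (1 + normSq s)) / normSq s := by
    rw [sub_im, inv_im]; field_simp; ring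
  have hxy : s.re ^ 2 + s.im ^ 2 = normSq s := by rw [normSq_apply]; ring
  have hA : normSq (s + s⁻¹) * ((1 + -s ^ 2) / (1 - -s ^ 2)).re = (1 - normSq s ^ 2) / normSq s := by
    have e1 : normSq (s + s⁻¹) * ((1 + -s ^ 2) / (1 - -s ^ 2)).re
        = (s + s⁻¹).re * ((s + s⁻¹) * ((1 + -s ^ 2) / (1 - -s ^ 2))).re
          + (s + s⁻¹).im * ((s + s⁻¹) * ((1 + -s ^ 2) / (1 - -s ^ 2))).im := by
      rw [normSq_apply, mul_re, mul_im]; ring
    rw [e1, hvq, hvre, hvim, hzre, hzim]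
    have e2 : s.re * (1 + normSq s) / normSq s * (s.re * (1 - normSq s) / normSq s)
        + -(s.im * (1 - normSq s) / normSq s) * (-(s.im * (1 + normSq s)) / normSq s)
        = (s.re ^ 2 + s.im ^ 2) * (1 - normSq s ^ 2) / normSq s ^ 2 := by
      field_simp; ring
    rw [e2, hxy]
    field_simp
  have hsg : (if 0 ≤ s.re then (1 : ℝ) else -1) * (s⁻¹ - s).re = |s.re| * (1 - normSq s) / normSq s := by
    rw [hzre]
    split_ifs with h
    · rw [abs_of_nonneg h]; ring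
    · rw [abs_of_neg (not_le.mp h)]; ring
  have hkey : (√3 + 9 / 10 * al) * |s.im| < (1 + normSq s) / 2 + al * |s.re| := by
    by_contra hc
    push Not at hc
    rw [← hxy] at hc
    have h2 := Pool.Agent.Helper59.V8.sector_of h0 h1 hc
    rw [hxy] at h2
    linarith
  have e3 : |(s + s⁻¹).im| = |s.im| * ((1 - normSq s) / normSq s) := by
    rw [hvim, abs_neg, mul_div_assoc, abs_mul, abs_of_pos (div_pos (by linarith) hn0)]
  have e4 : normSq (s + s⁻¹) / 2 * ((1 + -s ^ 2) / (1 - -s ^ 2)).re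
      = (1 + normSq s) / 2 * ((1 - normSq s) / normSq s) := by
    have : normSq (s + s⁻¹) / 2 * ((1 + -s ^ 2) / (1 - -s ^ 2)).re
      = (normSq (s + s⁻¹) * ((1 + -s ^ 2) / (1 - -s ^ 2)).re) / 2 := by ring
    rw [this, hA]
    field_simp
    ring
  rw [e3, e4, hvq, hsg]
  have h5 : 0 < (1 - normSq s) / normSq s := div_pos (by linarith) hn0
  have h6 := mul_lt_mul_of_pos_right hkey h5
  calc (√3 + 9 / 10 * al) * (|s.im| * ((1 - normSq s) / normSq s))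
      = (√3 + 9 / 10 * al) * |s.im| * ((1 - normSq s) / normSq s) := by ring
    _ < ((1 + normSq s) / 2 + al * |s.re|) * ((1 - normSq s) / normSq s) := h6
    _ = _ := by ring

/-- `α = 0`, at least three crossings -/
lemma margin_A0 {s : ℂ} (hs0 : s ≠ 0) (hs : ‖s‖ < 1) (hsec : (s⁻¹ - s).im ^ 2 < 3 * (s⁻¹ - s).re ^ 2)
    {r : ℂ} (hr : ‖r‖ ≤ normSq s ^ 3) :
    √3 * |(s + s⁻¹).im| < normSq (s + s⁻¹) / 2 * ((1 + r) / (1 - r)).re := by
  have hn0 : 0 < normSq s := normSq_pos.2 hs0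
  have hn1 : normSq s < 1 := by
    rw [normSq_eq_norm_sq]; nlinarith [norm_nonneg s]
  obtain ⟨-, hvim, hv⟩ := v_data hs0
  obtain ⟨-, hY, -⟩ := sec_data hs0 hsec
  have hA := caseA0 hn0 hn1 (abs_nonneg s.im) hY
  have hn3 : normSq s ^ 3 < 1 := pow_lt_one₀ hn0.le hn1 (by norm_num)
  have hq := qre_ge rfl hr hn3
  have e3 : |(s + s⁻¹).im| = |s.im| * ((1 - normSq s) / normSq s) := by
    rw [hvim, abs_neg, mul_div_assoc, abs_mul, abs_of_pos (div_pos (by linarith) hn0)]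
  have hvpos : 0 ≤ normSq (s + s⁻¹) / 2 := by
    have := normSq_nonneg (s + s⁻¹); linarith
  have h1 := mul_le_mul_of_nonneg_left hq hvpos
  refine lt_of_lt_of_le ?_ h1
  rw [e3, hv]
  have hn3' : 0 < 1 + normSq s ^ 3 := by positivity
  have e4 : ((1 + normSq s) ^ 2 - 4 * s.im ^ 2) / normSq s / 2 * ((1 - normSq s ^ 3) / (1 + normSq s ^ 3))
      = ((1 + normSq s) ^ 2 - 4 * |s.im| ^ 2) * (1 + normSq s + normSq s ^ 2)
        * ((1 - normSq s) / (2 * normSq s * (1 + normSq s ^ 3))) := by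
    rw [sq_abs]; field_simp; ring
  have e5 : √3 * (|s.im| * ((1 - normSq s) / normSq s))
      = 2 * √3 * |s.im| * (1 + normSq s ^ 3) * ((1 - normSq s) / (2 * normSq s * (1 + normSq s ^ 3))) := by
    field_simp
  rw [e4, e5]
  exact mul_lt_mul_of_pos_right hA (div_pos (by linarith) (by positivity))

/-- `α = 0`, two crossings -/
lemma margin_A2 {s : ℂ} (hs0 : s ≠ 0) (hs : ‖s‖ < 1) (hsec : (s⁻¹ - s).im ^ 2 < 3 * (s⁻¹ - s).re ^ 2) :
    5 / 3 * |(s + s⁻¹).im| < normSq (s + s⁻¹) / 2 * ((1 + (-s ^ 2) ^ 2) / (1 - (-s ^ 2) ^ 2)).re := by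
  have hn0 : 0 < normSq s := normSq_pos.2 hs0
  have hn1 : normSq s < 1 := by
    rw [normSq_eq_norm_sq]; nlinarith [norm_nonneg s]
  obtain ⟨-, hvim, hv⟩ := v_data hs0
  obtain ⟨-, hY, -⟩ := sec_data hs0 hsec
  have hA := caseA2 hn0 hn1 (abs_nonneg s.im) hY
  have hxy : s.re ^ 2 + s.im ^ 2 = normSq s := by rw [normSq_apply]; ring
  have e3 : |(s + s⁻¹).im| = |s.im| * ((1 - normSq s) / normSq s) := by
    rw [hvim, abs_neg, mul_div_assoc, abs_mul, abs_of_pos (div_pos (by linarith) hn0)]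
  have hP : normSq (1 + s ^ 2) = (1 + normSq s) ^ 2 - 4 * s.im ^ 2 := by
    rw [← hxy, normSq_apply, pow_two s]
    simp only [add_re, add_im, one_re, one_im, mul_re, mul_im]
    ring
  have hM : normSq (1 - s ^ 2) = (1 - normSq s) ^ 2 + 4 * s.im ^ 2 := by
    rw [← hxy, normSq_apply, pow_two s]
    simp only [sub_re, sub_im, one_re, one_im, mul_re, mul_im]
    ring
  have hPpos : 0 < (1 + normSq s) ^ 2 - 4 * s.im ^ 2 := by
    rw [← hP]
    apply normSq_pos.2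
    intro h
    have h2 : s ^ 2 = -1 := by linear_combination h
    have h3 : ‖s ^ 2‖ = 1 := by rw [h2]; simp
    rw [norm_pow] at h3
    nlinarith [norm_nonneg s]
  have hMpos : 0 < (1 - normSq s) ^ 2 + 4 * s.im ^ 2 := by
    have : 0 < (1 - normSq s) ^ 2 := by
      have : 0 < 1 - normSq s := by linarith
      positivity
    have := sq_nonneg s.im
    linarith
  have hq : ((1 + (-s ^ 2) ^ 2) / (1 - (-s ^ 2) ^ 2)).re
      = (1 - normSq s ^ 4) / (((1 - normSq s) ^ 2 + 4 * s.im ^ 2) * ((1 + normSq s) ^ 2 - 4 * s.im ^ 2)) := by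
    rw [qre_eq]
    have e1 : (1 : ℂ) - (-s ^ 2) ^ 2 = (1 - s ^ 2) * (1 + s ^ 2) := by ring
    rw [e1, normSq_mul, hM, hP, map_pow, normSq_neg, map_pow, ← pow_mul]
  rw [e3, hq, hv]
  have e4 : ((1 + normSq s) ^ 2 - 4 * s.im ^ 2) / normSq s / 2 *
      ((1 - normSq s ^ 4) / (((1 - normSq s) ^ 2 + 4 * s.im ^ 2) * ((1 + normSq s) ^ 2 - 4 * s.im ^ 2)))
      = 3 * (1 + normSq s) * (1 + normSq s ^ 2)
        * ((1 - normSq s) / (6 * normSq s * ((1 - normSq s) ^ 2 + 4 * s.im ^ 2))) := by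
    have h1 := hPpos.ne'
    have h2 := hMpos.ne'
    field_simp
    ring
  have e5 : 5 / 3 * (|s.im| * ((1 - normSq s) / normSq s))
      = 10 * |s.im| * ((1 - normSq s) ^ 2 + 4 * |s.im| ^ 2)
        * ((1 - normSq s) / (6 * normSq s * ((1 - normSq s) ^ 2 + 4 * s.im ^ 2))) := by
    rw [sq_abs]
    have h2 := hMpos.ne'
    field_simp
    ring
  rw [e4, e5]
  exact mul_lt_mul_of_pos_right hA (div_pos (by linarith) (by positivity))

/-- `α = 1`, at least two crossings -/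
lemma margin_A1 {s : ℂ} (hs0 : s ≠ 0) (hs : ‖s‖ < 1) (hsec : (s⁻¹ - s).im ^ 2 < 3 * (s⁻¹ - s).re ^ 2)
    {r : ℂ} (hr : ‖r‖ ≤ normSq s ^ 2) :
    8 / 3 * |(s + s⁻¹).im| < normSq (s + s⁻¹) / 2 * ((1 + r) / (1 - r)).re +
      (if 0 ≤ s.re then 1 else -1) * ((s + s⁻¹) * ((1 + r) / (1 - r))).re := by
  have hn0 : 0 < normSq s := normSq_pos.2 hs0
  have hn1 : normSq s < 1 := by
    rw [normSq_eq_norm_sq]; nlinarith [norm_nonneg s]
  obtain ⟨hvre, hvim, hv⟩ := v_data hs0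
  obtain ⟨-, hY, hX⟩ := sec_data hs0 hsec
  have hA := caseA1 hn0 hn1 (abs_nonneg s.re) (abs_nonneg s.im) hY hX
  have hn2 : normSq s ^ 2 < 1 := pow_lt_one₀ hn0.le hn1 (by norm_num)
  have hq := qre_ge rfl hr hn2
  have hi := qim_le rfl hr hn2
  obtain ⟨Q, hQ⟩ : ∃ Q, Q = (1 + r) / (1 - r) := ⟨_, rfl⟩
  rw [← hQ] at hq hi ⊢
  have e3 : |(s + s⁻¹).im| = |s.im| * ((1 - normSq s) / normSq s) := by
    rw [hvim, abs_neg, mul_div_assoc, abs_mul, abs_of_pos (div_pos (by linarith) hn0)]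
  have hD : 0 < (1 - normSq s) / normSq s := div_pos (by linarith) hn0
  -- the product
  have h2 : |s.re| * (1 + normSq s) / normSq s * Q.re - |s.im| * ((1 - normSq s) / normSq s) * |Q.im|
      ≤ (if 0 ≤ s.re then 1 else -1) * ((s + s⁻¹) * Q).re := by
    rw [mul_re, hvre]
    have h3 : (s + s⁻¹).im * Q.im ≤ |s.im| * ((1 - normSq s) / normSq s) * |Q.im| := by
      rw [← e3, ← abs_mul]; exact le_abs_self _
    have h4 : -((s + s⁻¹).im * Q.im) ≤ |s.im| * ((1 - normSq s) / normSq s) * |Q.im| := by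
      rw [← e3, ← abs_mul]; exact neg_le_abs _
    split_ifs with h
    · rw [abs_of_nonneg h]; linarith
    · rw [abs_of_neg (not_le.mp h)]
      have e : -s.re * (1 + normSq s) / normSq s * Q.re = -(s.re * (1 + normSq s) / normSq s * Q.re) := by
        ring
      rw [e]; linarith
  have h5 : |s.im| * ((1 - normSq s) / normSq s) * |Q.im|
      ≤ |s.im| * ((1 - normSq s) / normSq s) * (2 * normSq s ^ 2 / (1 - (normSq s ^ 2) ^ 2)) :=
    mul_le_mul_of_nonneg_left hi (by positivity)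
  have hpos6 : 0 ≤ normSq (s + s⁻¹) / 2 + |s.re| * (1 + normSq s) / normSq s := by
    have := normSq_nonneg (s + s⁻¹)
    positivity
  have h6 := mul_le_mul_of_nonneg_left hq hpos6
  have hfin : 8 / 3 * (|s.im| * ((1 - normSq s) / normSq s))
      < (normSq (s + s⁻¹) / 2 + |s.re| * (1 + normSq s) / normSq s) * ((1 - normSq s ^ 2) / (1 + normSq s ^ 2))
        - |s.im| * ((1 - normSq s) / normSq s) * (2 * normSq s ^ 2 / (1 - (normSq s ^ 2) ^ 2)) := by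
    rw [hv]
    have hn4 : 0 < 1 - (normSq s ^ 2) ^ 2 := by
      have : (normSq s ^ 2) ^ 2 < 1 := pow_lt_one₀ (by positivity) hn2 (by norm_num)
      linarith
    have h7 : 0 < (1 - normSq s) / (normSq s * (1 - normSq s ^ 4)) := by
      apply div_pos (by linarith)
      apply mul_pos hn0
      have : (normSq s ^ 2) ^ 2 = normSq s ^ 4 := by ring
      rw [← this]; exact hn4
    have h8 := mul_lt_mul_of_pos_right hA h7
    have h1n : (1 : ℝ) - normSq s ≠ 0 := by linarith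
    have h1m : (1 : ℝ) - normSq s ^ 4 ≠ 0 := by
      have : (normSq s ^ 2) ^ 2 = normSq s ^ 4 := by ring
      rw [← this]; exact hn4.ne'
    have h1p : (1 : ℝ) + normSq s ^ 2 ≠ 0 := by positivity
    have e6 : |s.im| * (2 * normSq s ^ 2 + 8 / 3 * (1 - normSq s ^ 4)) * ((1 - normSq s) / (normSq s * (1 - normSq s ^ 4)))
        = 8 / 3 * (|s.im| * ((1 - normSq s) / normSq s))
          + |s.im| * ((1 - normSq s) / normSq s) * (2 * normSq s ^ 2 / (1 - (normSq s ^ 2) ^ 2)) := by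
      have e : (normSq s ^ 2) ^ 2 = normSq s ^ 4 := by ring
      rw [e]
      field_simp
      ring
    have e7 : ((1 + normSq s) ^ 2 / 2 - 2 * |s.im| ^ 2 + |s.re| * (1 + normSq s)) * (1 - normSq s) * (1 + normSq s) ^ 2
        * ((1 - normSq s) / (normSq s * (1 - normSq s ^ 4)))
        = (((1 + normSq s) ^ 2 - 4 * s.im ^ 2) / normSq s / 2 + |s.re| * (1 + normSq s) / normSq s)
          * ((1 - normSq s ^ 2) / (1 + normSq s ^ 2)) := by
      rw [sq_abs]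
      have e : (1 : ℝ) - normSq s ^ 4 = (1 - normSq s) * (1 + normSq s) * (1 + normSq s ^ 2) := by ring
      have h1q : (1 : ℝ) + normSq s ≠ 0 := by positivity
      rw [e]
      field_simp
      ring
    rw [e6, e7] at h8
    linarith
  rw [e3]
  have e8 : (normSq (s + s⁻¹) / 2 + |s.re| * (1 + normSq s) / normSq s) * Q.re
      = normSq (s + s⁻¹) / 2 * Q.re + |s.re| * (1 + normSq s) / normSq s * Q.re := by ring
  rw [e8] at h6
  linarith

/-- **The margin** for a block of `m` parallel crossings. -/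
theorem margin {s : ℂ} (hs0 : s ≠ 0) (hs : ‖s‖ < 1) (hsec : (s⁻¹ - s).im ^ 2 < 3 * (s⁻¹ - s).re ^ 2)
    {al : ℝ} (h0 : 0 ≤ al) (h1 : al ≤ 1) {m : ℕ} (hm : 0 < m) :
    (if m = 2 then 5 / 3 + al else √3 + 9 / 10 * al) * |(s + s⁻¹).im| <
      normSq (s + s⁻¹) / 2 * ((1 + (-s ^ 2) ^ m) / (1 - (-s ^ 2) ^ m)).re +
      al * ((if 0 ≤ s.re then 1 else -1) * ((s + s⁻¹) * ((1 + (-s ^ 2) ^ m) / (1 - (-s ^ 2) ^ m))).re) := by
  have hn0 : 0 < normSq s := normSq_pos.2 hs0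
  have hn1 : normSq s < 1 := by
    rw [normSq_eq_norm_sq]; nlinarith [norm_nonneg s]
  have hnorm : ‖(-s ^ 2) ^ m‖ = normSq s ^ m := by
    rw [norm_pow, norm_neg, norm_pow, ← normSq_eq_norm_sq]
  have hs3 : √3 ≤ 1.7321 := by
    rw [Real.sqrt_le_left (by norm_num)]
    norm_num
  rcases Nat.lt_or_ge m 2 with h2 | h2
  · have e : m = 1 := by omega
    subst e
    rw [if_neg (by norm_num), pow_one]
    exact margin_one hs0 hs hsec h0 h1
  · have hA1 := margin_A1 hs0 hs hsec (r := (-s ^ 2) ^ m) (by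
      rw [hnorm]; exact pow_le_pow_of_le_one hn0.le hn1.le h2)
    have hI : 0 ≤ |(s + s⁻¹).im| := abs_nonneg _
    by_cases h3 : m = 2
    · subst h3
      have hA2 := margin_A2 hs0 hs hsec
      rw [if_pos rfl]
      rcases h0.lt_or_eq with h | h
      · have e1 := mul_lt_mul_of_pos_left hA1 h
        have e2 := mul_le_mul_of_nonneg_left hA2.le (by linarith : 0 ≤ 1 - al)
        nlinarith
      · rw [← h]; linarith
    · have hA0 := margin_A0 hs0 hs hsec (r := (-s ^ 2) ^ m) (by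
        rw [hnorm]; exact pow_le_pow_of_le_one hn0.le hn1.le (by omega))
      rw [if_neg h3]
      have e0 : al * ((√3 + 9 / 10) * |(s + s⁻¹).im|) ≤ al * (8 / 3 * |(s + s⁻¹).im|) := by
        apply mul_le_mul_of_nonneg_left _ h0
        apply mul_le_mul_of_nonneg_right _ hI
        linarith
      rcases h0.lt_or_eq with h | h
      · have e1 := mul_lt_mul_of_pos_left hA1 h
        have e2 := mul_le_mul_of_nonneg_left hA0.le (by linarith : 0 ≤ 1 - al)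
        nlinarith
      · rw [← h]; linarith

end Pool.Agent.Helper30.VQ
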