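import Pool.Agent.Helper30.VQ.Cir
import Pool.Agent.Helper43.V6.Def

/-!
The weights of `Helper43.V6.Def` are the weights `wt` of `Cir.lean`.
-/

namespace Pool.Agent.Helper30.VQ

open Finset Complex Pool.Agent.Helper59.V8

variable {P : Type} [Fintype P]

/-- points of the cycle of `e` with `t`, counted along the walk -/
theorem card_cycle (σ : Equiv.Perm P) (t : P → Bool) (e : P) :
    Nat.card {q : P // σ.SameCycle e q ∧ t q = true} = nL σ t e := by
  classical
  have hpos := period_pos σ e
  have hcoe : ∀ k : ℕ, (σ ^ k) e = σ^[k] e := fun k => by rw [Equiv.Perm.coe_pow]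
  have himg : ((range (Function.minimalPeriod σ e)).filter (fun k => t ((σ ^ k) e) = true)).image
      (fun k => (σ ^ k) e) = (univ : Finset P).filter (fun q => σ.SameCycle e q ∧ t q = true) := by
    ext q
    simp only [mem_image, mem_filter, mem_range, mem_univ, true_and]
    constructor
    · rintro ⟨k, ⟨_, hk2⟩, rfl⟩
      exact ⟨⟨k, by simp⟩, hk2⟩
    · rintro ⟨h1, h2⟩
      obtain ⟨n, hn⟩ := h1.exists_nat_pow_eq
      refine ⟨n % Function.minimalPeriod σ e, ⟨Nat.mod_lt _ hpos, ?_⟩, ?_⟩
      · rw [hcoe, Function.iterate_mod_minimalPeriod_eq, ← hcoe, hn]; exact h2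
      · rw [hcoe, Function.iterate_mod_minimalPeriod_eq, ← hcoe, hn]
  have hinj : Set.InjOn (fun k => (σ ^ k) e)
      ((range (Function.minimalPeriod σ e)).filter (fun k => t ((σ ^ k) e) = true) : Finset ℕ) := by
    intro a ha b hb hab
    simp only [coe_filter, mem_range, Set.mem_ofPred_eq] at ha hb
    have h := Function.iterate_injOn_Iio_minimalPeriod (f := σ) (x := e)
    apply h (Set.mem_Iio.mpr ha.1) (Set.mem_Iio.mpr hb.1)
    simp only [hcoe] at hab
    exact hab
  unfold nL
  rw [← card_image_of_injOn hinj, himg, Nat.card_eq_fintype_card, Fintype.card_subtype]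

theorem card_cycle_false (σ : Equiv.Perm P) (t : P → Bool) (e : P) :
    Nat.card {q : P // σ.SameCycle e q ∧ t q = false} = nR σ t e := by
  have h := card_cycle σ (fun q => ! t q) e
  unfold nL at h
  unfold nR
  simp only [Bool.not_eq_true'] at h
  exact h

theorem nL_comp (σ : Equiv.Perm P) (b : P → Bool) (e : P) :
    nL σ (fun q => b (σ q)) e = nL σ b e := by
  have he := period_pos σ e
  have hp : Function.minimalPeriod σ (σ e) = Function.minimalPeriod σ e :=
    Function.minimalPeriod_apply (Function.minimalPeriod_pos_iff_mem_periodicPts.mp he)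
  rw [← nL_apply σ b e he]
  unfold nL
  rw [hp]
  congr 1
  apply filter_congr
  intro k _
  have e1 : σ ((σ ^ k) e) = (σ ^ k) (σ e) := by
    rw [← Equiv.Perm.mul_apply, ← Equiv.Perm.mul_apply, ← pow_succ, ← pow_succ']
  simp only [e1]

omit [Fintype P] in
theorem nL_not (σ : Equiv.Perm P) (b : P → Bool) (e : P) :
    nL σ (fun q => ! b q) e = nR σ b e := by
  unfold nL nR
  simp only [Bool.not_eq_true']

omit [Fintype P] in
theorem nR_not (σ : Equiv.Perm P) (b : P → Bool) (e : P) :
    nR σ (fun q => ! b q) e = nL σ b e := by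
  unfold nL nR
  simp only [Bool.not_eq_false']

theorem nR_comp (σ : Equiv.Perm P) (b : P → Bool) (e : P) :
    nR σ (fun q => b (σ q)) e = nR σ b e := by
  rw [← nL_not, ← nL_not]
  exact nL_comp σ (fun q => ! b q) e

section diagram

open Pool.Agent.Helper85.Exp Pool.Agent.Helper43.Pln Pool.Agent.Helper43.V6

omit [Fintype P] in
theorem lf_nxt (G : Sh P) (ho : ∀ i, G.op i ≠ i) (e : P) :
    G.lf (G.nxt e) = ! G.lf (seifert G e) := by
  have h : seifert G e = G.op (G.nxt e) := rfl
  rw [h, G.lf_op _ (ho _), Bool.not_not]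

theorem side_false_eq (G : Sh P) (ho : ∀ i, G.op i ≠ i) (p : P) :
    side G false p = nL (seifert G) (fun e => G.lf (G.nxt e)) p := by
  unfold side
  rw [card_cycle_false]
  have e1 : (fun e => G.lf (G.nxt e)) = (fun e => ! G.lf (seifert G e)) := by
    funext e; exact lf_nxt G ho e
  rw [e1, nL_comp (seifert G) (fun q => ! G.lf q), nL_not]

theorem side_true_eq (G : Sh P) (ho : ∀ i, G.op i ≠ i) (p : P) :
    side G true p = nR (seifert G) (fun e => G.lf (G.nxt e)) p := by
  unfold side
  rw [card_cycle]
  have e1 : (fun e => G.lf (G.nxt e)) = (fun e => ! G.lf (seifert G e)) := by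
    funext e; exact lf_nxt G ho e
  rw [e1, nR_comp (seifert G) (fun q => ! G.lf q), nR_not]

theorem total_eq (G : Sh P) (ho : ∀ i, G.op i ≠ i) (p : P) :
    total G p = Function.minimalPeriod (seifert G) p := by
  unfold total
  rw [side_true_eq G ho, side_false_eq G ho, add_comm, nL_add_nR]

/-- the weights of `Def.lean` are the weights `wt` for the side function of `Lens.lean` -/
theorem weight_eq (α : ℝ) (G : Sh P) (ho : ∀ i, G.op i ≠ i) (p : P) :
    weight α G p = wt α (seifert G) (fun e => G.lf (G.nxt e)) p := by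
  unfold weight wt bet
  rw [total_eq G ho, side_true_eq G ho, side_false_eq G ho,
    mul_comm ((nR (seifert G) (fun e => G.lf (G.nxt e)) p : ℕ) : ℝ)]

end diagram

end Pool.Agent.Helper30.VQ
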