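import Mathlib

/-!
Lemma Q: a closed polygon of length `len` lies in a disc of radius `len / 4`; the mixed area of two
closed polygons which never move at the same time is at most half the product of the lengths.
-/

namespace Pool.Agent.Helper30.VQ

open Finset Complex

/-- length of the first `k` steps -/
noncomputable def plen (L : ℕ → ℂ) (k : ℕ) : ℝ := ∑ j ∈ range k, ‖L (j + 1) - L j‖

lemma plen_succ (L : ℕ → ℂ) (k : ℕ) : plen L (k + 1) = plen L k + ‖L (k + 1) - L k‖ := by
  unfold plen; rw [sum_range_succ]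

lemma plen_zero (L : ℕ → ℂ) : plen L 0 = 0 := by simp [plen]

lemma plen_mono (L : ℕ → ℂ) {a b : ℕ} (h : a ≤ b) : plen L a ≤ plen L b := by
  unfold plen
  exact sum_le_sum_of_subset_of_nonneg (range_mono h) (fun _ _ _ => norm_nonneg _)

lemma dist_le_plen (L : ℕ → ℂ) {a b : ℕ} (h : a ≤ b) : ‖L b - L a‖ ≤ plen L b - plen L a := by
  induction b, h using Nat.le_induction with
  | base => simp
  | succ m _ ih =>
    rw [plen_succ]
    have h1 : L (m + 1) - L a = (L (m + 1) - L m) + (L m - L a) := by ring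
    rw [h1]
    have h2 := norm_add_le (L (m + 1) - L m) (L m - L a)
    linarith

/-- a closed polygon lies in a disc whose radius is a quarter of its length -/
theorem disc (L : ℕ → ℂ) (n : ℕ) (hL : L n = L 0) :
    ∃ l : ℂ, ∀ j ≤ n, ‖L j - l‖ ≤ plen L n / 4 := by
  classical
  set ℓ := plen L n with hℓ
  have hℓ0 : 0 ≤ ℓ := by rw [hℓ, ← plen_zero L]; exact plen_mono L (Nat.zero_le n)
  have hex : ∃ k, ℓ / 2 ≤ plen L k := ⟨n, by linarith⟩
  obtain ⟨m, hm⟩ : ∃ m, m = Nat.find hex := ⟨_, rfl⟩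
  have hm1 : ℓ / 2 ≤ plen L m := by rw [hm]; exact Nat.find_spec hex
  have hm2 : ∀ k < m, plen L k < ℓ / 2 := by
    intro k hk
    rw [hm] at hk
    exact not_le.mp (Nat.find_min hex hk)
  rcases Nat.eq_zero_or_pos m with h0 | hpos
  · -- total length zero
    rw [h0, plen_zero] at hm1
    have hz : ℓ = 0 := by linarith
    refine ⟨L 0, fun j hj => ?_⟩
    have h1 := dist_le_plen L (Nat.zero_le j)
    have h2 := plen_mono L hj
    rw [plen_zero] at h1
    rw [← hℓ] at h2
    linarith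
  · obtain ⟨k, rfl⟩ : ∃ k, m = k + 1 := ⟨m - 1, by omega⟩
    have hk1 : plen L k < ℓ / 2 := hm2 k (Nat.lt_succ_self k)
    rw [plen_succ] at hm1
    have hkn : k < n := by
      by_contra hc
      have := plen_mono L (not_lt.mp hc)
      rw [← hℓ] at this
      linarith
    set a := ‖L (k + 1) - L k‖ with ha
    have hapos : 0 < a := by linarith
    set t : ℝ := (ℓ / 2 - plen L k) / a with ht
    have ht0 : 0 ≤ t := by rw [ht]; apply div_nonneg <;> linarith
    have hta : t * a = ℓ / 2 - plen L k := by rw [ht]; field_simp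
    have ht1 : t ≤ 1 := by rw [ht, div_le_one hapos]; linarith
    set p : ℂ := L k + (t : ℂ) * (L (k + 1) - L k) with hp
    have hpk : ‖p - L k‖ = t * a := by
      have : p - L k = (t : ℂ) * (L (k + 1) - L k) := by rw [hp]; ring
      rw [this, norm_mul, Complex.norm_real, Real.norm_of_nonneg ht0]
    have hpk1 : ‖L (k + 1) - p‖ = (1 - t) * a := by
      have : L (k + 1) - p = ((1 - t : ℝ) : ℂ) * (L (k + 1) - L k) := by
        rw [hp]; push_cast; ring
      rw [this, norm_mul, Complex.norm_real, Real.norm_of_nonneg (by linarith)]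
    refine ⟨(L 0 + p) / 2, fun j hj => ?_⟩
    have hsplit : L j - (L 0 + p) / 2 = ((L j - L 0) + (L j - p)) / 2 := by ring
    rw [hsplit, norm_div]
    have h2 : ‖(2 : ℂ)‖ = 2 := by norm_num
    rw [h2]
    have hsum : ‖L j - L 0‖ + ‖L j - p‖ ≤ ℓ / 2 := by
      rcases Nat.lt_or_ge k j with hj1 | hj1
      · -- j ≥ k + 1
        have e1 : ‖L j - L 0‖ ≤ ℓ - plen L j := by
          have := dist_le_plen L hj
          rw [hL, ← hℓ] at this
          rw [norm_sub_rev]; exact this
        have e2 : ‖L j - p‖ ≤ plen L j - ℓ / 2 := by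
          have h3 := dist_le_plen L (show k + 1 ≤ j from hj1)
          have h4 : L j - p = (L j - L (k + 1)) + (L (k + 1) - p) := by ring
          rw [h4]
          have h5 := norm_add_le (L j - L (k + 1)) (L (k + 1) - p)
          rw [hpk1] at h5
          rw [plen_succ] at h3
          nlinarith
        linarith
      · have e1 : ‖L j - L 0‖ ≤ plen L j := by
          have := dist_le_plen L (Nat.zero_le j)
          rw [plen_zero] at this; linarith
        have e2 : ‖L j - p‖ ≤ ℓ / 2 - plen L j := by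
          have h3 := dist_le_plen L hj1
          have h4 : L j - p = -((L k - L j) + (p - L k)) := by ring
          rw [h4, norm_neg]
          have h5 := norm_add_le (L k - L j) (p - L k)
          rw [hpk] at h5
          linarith
        linarith
    have h6 := norm_add_le (L j - L 0) (L j - p)
    linarith

/-- the mixed area of two closed polygons which never move at the same time -/
theorem mixed_area (L R : ℕ → ℂ) (n : ℕ) (hL : L n = L 0) (hR : R n = R 0)
    (hs : ∀ j < n, L (j + 1) = L j ∨ R (j + 1) = R j) :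
    |∑ j ∈ range n, (R j * (starRingEnd ℂ) (L (j + 1) - L j)
        + L j * (starRingEnd ℂ) (R (j + 1) - R j)).im| ≤ plen L n * plen R n / 2 := by
  obtain ⟨l, hl⟩ := disc L n hL
  have key : ∑ j ∈ range n, (R j * (starRingEnd ℂ) (L (j + 1) - L j)
        + L j * (starRingEnd ℂ) (R (j + 1) - R j)).im
      = ∑ j ∈ range n, 2 * ((L j - l) * (starRingEnd ℂ) (R (j + 1) - R j)).im := by
    have h1 : ∀ j ∈ range n, (R j * (starRingEnd ℂ) (L (j + 1) - L j)
        + L j * (starRingEnd ℂ) (R (j + 1) - R j)).im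
        = 2 * ((L j - l) * (starRingEnd ℂ) (R (j + 1) - R j)).im
          + ((2 * (l * (starRingEnd ℂ) (R (j + 1))) - L (j + 1) * (starRingEnd ℂ) (R (j + 1))).im
            - (2 * (l * (starRingEnd ℂ) (R j)) - L j * (starRingEnd ℂ) (R j)).im) := by
      intro j hj
      rcases hs j (mem_range.mp hj) with h | h
      · rw [h]; simp [Complex.mul_im, Complex.sub_im]; ring
      · rw [h]; simp [Complex.mul_im, Complex.sub_im]; ring
    rw [sum_congr rfl h1, sum_add_distrib,
      sum_range_sub (fun j => (2 * (l * (starRingEnd ℂ) (R j)) - L j * (starRingEnd ℂ) (R j)).im),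
      hL, hR, sub_self, add_zero]
  rw [key]
  have hb : ∀ j ∈ range n, |2 * ((L j - l) * (starRingEnd ℂ) (R (j + 1) - R j)).im|
      ≤ plen L n / 2 * ‖R (j + 1) - R j‖ := by
    intro j hj
    rw [abs_mul, abs_two]
    have h1 := Complex.abs_im_le_norm ((L j - l) * (starRingEnd ℂ) (R (j + 1) - R j))
    rw [norm_mul, Complex.norm_conj] at h1
    have h2 := hl j (le_of_lt (mem_range.mp hj))
    have h3 := mul_le_mul_of_nonneg_right h2 (norm_nonneg (R (j + 1) - R j))
    linarith
  calc |∑ j ∈ range n, 2 * ((L j - l) * (starRingEnd ℂ) (R (j + 1) - R j)).im|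
      ≤ ∑ j ∈ range n, |2 * ((L j - l) * (starRingEnd ℂ) (R (j + 1) - R j)).im| :=
        abs_sum_le_sum_abs _ _
    _ ≤ ∑ j ∈ range n, plen L n / 2 * ‖R (j + 1) - R j‖ := sum_le_sum hb
    _ = plen L n * plen R n / 2 := by rw [← mul_sum]; unfold plen; ring

lemma plen_sq_le (L : ℕ → ℂ) (n : ℕ) (S : Finset ℕ)
    (h : ∀ j < n, j ∉ S → L (j + 1) = L j) (hS : S ⊆ range n) :
    (plen L n) ^ 2 ≤ (S.card : ℝ) * ∑ j ∈ range n, ‖L (j + 1) - L j‖ ^ 2 := by
  have h1 : plen L n = ∑ j ∈ S, ‖L (j + 1) - L j‖ := by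
    unfold plen
    symm
    apply sum_subset hS
    intro j hj hjS
    rw [h j (mem_range.mp hj) hjS, sub_self, norm_zero]
  rw [h1]
  have h2 : (∑ j ∈ S, ‖L (j + 1) - L j‖) ^ 2 ≤ (S.card : ℝ) * ∑ j ∈ S, ‖L (j + 1) - L j‖ ^ 2 :=
    sq_sum_le_card_mul_sum_sq
  refine h2.trans ?_
  apply mul_le_mul_of_nonneg_left _ (Nat.cast_nonneg _)
  exact sum_le_sum_of_subset_of_nonneg hS (fun _ _ _ => by positivity)

/-- Lemma Q -/
theorem lemQ (L R : ℕ → ℂ) (n : ℕ) (hL : L n = L 0) (hR : R n = R 0)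
    (p : ℕ → Prop) [DecidablePred p]
    (h1 : ∀ j < n, p j → R (j + 1) = R j) (h2 : ∀ j < n, ¬ p j → L (j + 1) = L j)
    (q : ℝ) (hq : 0 ≤ q)
    (hq2 : (((range n).filter p).card : ℝ) * (((range n).filter (fun j => ¬ p j)).card : ℝ) ≤ q ^ 2) :
    |∑ j ∈ range n, (R j * (starRingEnd ℂ) (L (j + 1) - L j)
        + L j * (starRingEnd ℂ) (R (j + 1) - R j)).im|
      ≤ q / 4 * ∑ j ∈ range n, (‖L (j + 1) - L j‖ ^ 2 + ‖R (j + 1) - R j‖ ^ 2) := by
  have hA := mixed_area L R n hL hR (fun j hj => by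
    by_cases hp : p j
    · exact Or.inr (h1 j hj hp)
    · exact Or.inl (h2 j hj hp))
  have hB := plen_sq_le L n ((range n).filter p) (fun j hj hjS => h2 j hj (fun hp =>
    hjS (mem_filter.mpr ⟨mem_range.mpr hj, hp⟩))) (filter_subset _ _)
  have hC := plen_sq_le R n ((range n).filter (fun j => ¬ p j)) (fun j hj hjS => h1 j hj (by
    by_contra hp
    exact hjS (mem_filter.mpr ⟨mem_range.mpr hj, hp⟩))) (filter_subset _ _)
  rw [sum_add_distrib]
  set UL := ∑ j ∈ range n, ‖L (j + 1) - L j‖ ^ 2 with hUL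
  set UR := ∑ j ∈ range n, ‖R (j + 1) - R j‖ ^ 2 with hUR
  have hUL0 : 0 ≤ UL := sum_nonneg (fun _ _ => by positivity)
  have hUR0 : 0 ≤ UR := sum_nonneg (fun _ _ => by positivity)
  have hl0 : 0 ≤ plen L n := by rw [← plen_zero L]; exact plen_mono L (Nat.zero_le n)
  have hr0 : 0 ≤ plen R n := by rw [← plen_zero R]; exact plen_mono R (Nat.zero_le n)
  set a : ℝ := (((range n).filter p).card : ℝ) with ha
  set b : ℝ := (((range n).filter (fun j => ¬ p j)).card : ℝ) with hb
  have ha0 : 0 ≤ a := Nat.cast_nonneg _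
  have hb0 : 0 ≤ b := Nat.cast_nonneg _
  have hprod : (plen L n * plen R n) ^ 2 ≤ (q / 2 * (UL + UR)) ^ 2 := by
    calc (plen L n * plen R n) ^ 2 = (plen L n) ^ 2 * (plen R n) ^ 2 := by ring
      _ ≤ (a * UL) * (b * UR) := mul_le_mul hB hC (by positivity) (by positivity)
      _ = (a * b) * (UL * UR) := by ring
      _ ≤ q ^ 2 * (UL * UR) := mul_le_mul_of_nonneg_right hq2 (by positivity)
      _ ≤ q ^ 2 * ((UL + UR) ^ 2 / 4) :=
          mul_le_mul_of_nonneg_left (by nlinarith [sq_nonneg (UL - UR)]) (by positivity)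
      _ = (q / 2 * (UL + UR)) ^ 2 := by ring
  have hfin : plen L n * plen R n ≤ q / 2 * (UL + UR) :=
    le_of_sq_le_sq hprod (by positivity)
  linarith
where
  le_of_sq_le_sq {x y : ℝ} (h : x ^ 2 ≤ y ^ 2) (hy : 0 ≤ y) : x ≤ y :=
    le_trans (le_abs_self x) (abs_le_of_sq_le_sq' h hy |> fun hh => abs_le.mpr hh)

end Pool.Agent.Helper30.VQ
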